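import Pool.Agent.Helper76.TH.StC

/-!
# Project TH, module DIMEH: dimension of subEH
-/

set_option autoImplicit false

namespace Pool.Agent.Helper3.TH

open Pool.Agent.Helper76.TH Pool.Agent.Helper93.TLH Pool.Agent.Helper14.W5

section lin

variable {W W' : Type} [AddCommGroup W] [Module ℂ W] [FiniteDimensional ℂ W] [AddCommGroup W']
  [Module ℂ W']

private theorem rn (f : W →ₗ[ℂ] W') (V : Submodule ℂ W) :
    Module.finrank ℂ (V.map f) + Module.finrank ℂ ↥(V ⊓ LinearMap.ker f) =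
      Module.finrank ℂ V := by
  have h := LinearMap.finrank_range_add_finrank_ker (f.domRestrict V)
  rw [LinearMap.range_domRestrict, LinearMap.ker_domRestrict] at h
  have h2 : Module.finrank ℂ ↥((LinearMap.ker f).comap V.subtype) =
      Module.finrank ℂ ↥(V ⊓ LinearMap.ker f) := by
    rw [← Submodule.map_comap_subtype, Submodule.finrank_map_subtype_eq]
  rw [h2] at h
  exact h

end lin

section lin2

variable {W W' : Type} [AddCommGroup W] [Module ℂ W] [FiniteDimensional ℂ W] [AddCommGroup W']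
  [Module ℂ W'] [FiniteDimensional ℂ W']

private theorem fr_prod (V : Submodule ℂ W) (V' : Submodule ℂ W') :
    Module.finrank ℂ ↥(V.prod V') = Module.finrank ℂ V + Module.finrank ℂ V' := by
  have h1 : V.prod V' = LinearMap.range (V.subtype.prodMap V'.subtype) := by
    rw [LinearMap.range_prodMap, Submodule.range_subtype, Submodule.range_subtype]
  rw [h1, LinearMap.finrank_range_of_inj, Module.finrank_prod]
  rintro ⟨a, b⟩ ⟨a', b'⟩ h
  simp only [LinearMap.prodMap_apply, Submodule.subtype_apply, Prod.mk.injEq,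
    SetLike.coe_eq_coe] at h
  rw [h.1, h.2]

end lin2

/-- `4` times the projection onto `inv5 r r' e e'` -/
private def P {m : ℕ} (r r' : Pt m → Pt m) (e e' : ℂ) : (Pt m → ℂ) →ₗ[ℂ] (Pt m → ℂ) where
  toFun F p := F p + e * F (r p) + e' * F (r' p) + e * e' * F (r (r' p))
  map_add' F F' := by funext p; simp only [Pi.add_apply]; ring
  map_smul' c F := by funext p; simp only [Pi.smul_apply, smul_eq_mul, RingHom.id_apply]; ring

private theorem P_apply {m : ℕ} (r r' : Pt m → Pt m) (e e' : ℂ) (F : Pt m → ℂ) (p : Pt m) :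
    P r r' e e' F p = F p + e * F (r p) + e' * F (r' p) + e * e' * F (r (r' p)) := rfl

/-- the sum over the powers of the rotation `r r'` -/
private def N4 {m : ℕ} (r r' : Pt m → Pt m) : (Pt m → ℂ) →ₗ[ℂ] (Pt m → ℂ) where
  toFun F p := F p + F (r (r' p)) + F (r (r' (r (r' p)))) + F (r (r' (r (r' (r (r' p))))))
  map_add' F F' := by funext p; simp only [Pi.add_apply]; ring
  map_smul' c F := by funext p; simp only [Pi.smul_apply, smul_eq_mul, RingHom.id_apply]; ring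

private theorem N4_apply {m : ℕ} (r r' : Pt m → Pt m) (F : Pt m → ℂ) (p : Pt m) :
    N4 r r' F p = F p + F (r (r' p)) + F (r (r' (r (r' p)))) + F (r (r' (r (r' (r (r' p)))))) := rfl

private theorem pw0 {m : ℕ} (hm : 1 ≤ m) : (5 : ZMod (5 ^ m)) * 5 ^ (m - 1) = 0 := by
  rw [← pow_succ', Nat.sub_add_cancel hm]
  have h3 := ZMod.natCast_self (5 ^ m)
  push_cast at h3
  exact h3

private theorem red {m : ℕ} (hm : 1 ≤ m) (t : ℤ) :
    (t : ZMod (5 ^ m)) * 5 ^ (m - 1) = ((t : ZMod 5).val : ZMod (5 ^ m)) * 5 ^ (m - 1) := by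
  have h1 : ((t : ZMod 5).val : ℤ) = t % 5 := by
    rw [ZMod.val_intCast]
    norm_num
  have h2 : (((t : ZMod 5).val : ℕ) : ZMod (5 ^ m)) = ((t % 5 : ℤ) : ZMod (5 ^ m)) := by
    rw [← h1]
    push_cast
    rfl
  rw [h2]
  have h3 : t = t % 5 + 5 * (t / 5) := (Int.emod_add_mul_ediv t 5).symm
  have h4 : (t : ZMod (5 ^ m)) = ((t % 5 : ℤ) : ZMod (5 ^ m)) + 5 * ((t / 5 : ℤ) : ZMod (5 ^ m)) := by
    conv_lhs => rw [h3]
    push_cast
    ring
  rw [h4]
  linear_combination ((t / 5 : ℤ) : ZMod (5 ^ m)) * pw0 hm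

private theorem sum_zmod (g : ℕ → ℂ) :
    ∑ i ∈ Finset.range 5, g i = ∑ z : ZMod 5, g z.val := by
  have : ∀ h : ZMod 5 → ℂ, ∑ z : ZMod 5, h z = ∑ i : Fin 5, h i := fun h => rfl
  rw [Finset.sum_range, this]
  rfl

private theorem sum_s {m : ℕ} (hm : 1 ≤ m) (s : ℤ) (hs : ¬ (5 : ℤ) ∣ s)
    (g : ZMod (5 ^ m) → ℂ) :
    ∑ i ∈ Finset.range 5, g (s * ((i : ZMod (5 ^ m)) * 5 ^ (m - 1))) =
      ∑ i ∈ Finset.range 5, g ((i : ZMod (5 ^ m)) * 5 ^ (m - 1)) := by
  have hf : Fact (Nat.Prime 5) := ⟨by norm_num⟩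
  have hs0 : (s : ZMod 5) ≠ 0 := by
    intro h
    exact hs ((ZMod.intCast_zmod_eq_zero_iff_dvd s 5).1 h)
  rw [sum_zmod (fun i => g (s * ((i : ZMod (5 ^ m)) * 5 ^ (m - 1)))),
    sum_zmod (fun i => g ((i : ZMod (5 ^ m)) * 5 ^ (m - 1)))]
  refine Fintype.sum_equiv (Equiv.mulLeft₀ (s : ZMod 5) hs0) _ _ fun z => ?_
  have h1 := red hm (s * (z.val : ℤ))
  have h2 : ((s * (z.val : ℤ) : ℤ) : ZMod 5) = (s : ZMod 5) * z := by
    push_cast
    rw [ZMod.natCast_zmod_val]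
  rw [h2] at h1
  change g (s * ((z.val : ZMod (5 ^ m)) * 5 ^ (m - 1))) =
    g ((((s : ZMod 5) * z).val : ZMod (5 ^ m)) * 5 ^ (m - 1))
  rw [← h1]
  congr 1
  push_cast
  ring

private theorem anti_s {m : ℕ} (hm : 1 ≤ m) {F : Pt m → ℂ} (hF : F ∈ anti5 m) (s : ℤ)
    (hs : ¬ (5 : ℤ) ∣ s) (x y : ZMod (5 ^ m)) :
    ∑ i ∈ Finset.range 5, F (x + s * (i * 5 ^ (m - 1)), y) = 0 ∧
      ∑ i ∈ Finset.range 5, F (x, y + s * (i * 5 ^ (m - 1))) = 0 := by
  obtain ⟨h1, h2⟩ := hF (x, y)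
  constructor
  · rw [sum_s hm s hs (fun t => F (x + t, y))]
    exact h1
  · rw [sum_s hm s hs (fun t => F (x, y + t))]
    exact h2

private theorem dv_step {m : ℕ} (hm : 1 ≤ m) {s : ℤ} {φ : ZMod (5 ^ m) → ZMod (5 ^ m)}
    (h : Dv s φ) (x : ZMod (5 ^ m)) (i : ℕ) :
    φ (x + i * 5 ^ (m - 1)) = φ x + s * (i * 5 ^ (m - 1)) := by
  have h1 := h (m - 1) (x + i * 5 ^ (m - 1)) x ⟨i, by ring⟩
  have h2 : (5 : ZMod (5 ^ m)) ^ (m - 1 + 1) = 0 := by
    rw [Nat.sub_add_cancel hm]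
    have h3 := ZMod.natCast_self (5 ^ m)
    push_cast at h3
    exact h3
  rw [h2, zero_dvd_iff] at h1
  linear_combination h1

private theorem anti_comp {m n : ℕ} (hm : 1 ≤ m) {r : Pt m → Pt m} (hr : TyH n r) {F : Pt m → ℂ}
    (hF : F ∈ anti5 m) : (fun p => F (r p)) ∈ anti5 m := by
  rcases hr with ⟨_, s, s', φ, φ', hs, hs', _, _, hφ, hφ', hr⟩ | ⟨_, s, s', ψ, ψ', hs, hs', hψ, hψ', hr⟩
  · intro p
    simp only [hr, dv_step hm hφ, dv_step hm hφ']
    exact ⟨(anti_s hm hF s hs (φ p.1) (φ' p.2)).1, (anti_s hm hF s' hs' (φ p.1) (φ' p.2)).2⟩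
  · intro p
    simp only [hr, dv_step hm hψ, dv_step hm hψ']
    exact ⟨(anti_s hm hF s' hs' (ψ p.2) (ψ' p.1)).2, (anti_s hm hF s hs (ψ p.2) (ψ' p.1)).1⟩

private theorem P_mem {m n n' : ℕ} (hm : 1 ≤ m) {r r' : Pt m → Pt m} (hk : Kl r r') (hr : TyH n r)
    (hr' : TyH n' r') {e e' : ℂ} (he : e * e = 1) (he' : e' * e' = 1) {F : Pt m → ℂ}
    (hF : F ∈ anti5 m) : P r r' e e' F ∈ inv5 r r' e e' := by
  obtain ⟨k1, k2, k3⟩ := hk
  have h1 : (fun p => F (r p)) ∈ anti5 m := anti_comp hm hr hF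
  have h2 : (fun p => F (r' p)) ∈ anti5 m := anti_comp hm hr' hF
  have h3 : (fun p => F (r (r' p))) ∈ anti5 m := anti_comp hm hr' h1
  refine ⟨?_, fun p => ⟨?_, ?_⟩⟩
  · have h4 : P r r' e e' F = F + e • (fun p => F (r p)) + e' • (fun p => F (r' p)) +
        (e * e') • (fun p => F (r (r' p))) := by
      funext p
      simp only [P_apply, Pi.add_apply, Pi.smul_apply, smul_eq_mul]
    rw [h4]
    exact Submodule.add_mem _ (Submodule.add_mem _ (Submodule.add_mem _ hF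
      (Submodule.smul_mem _ _ h1)) (Submodule.smul_mem _ _ h2)) (Submodule.smul_mem _ _ h3)
  · simp only [P_apply]
    rw [k1 p, ← k3 p, k1 (r' p)]
    linear_combination (-(F (r p)) - e' * F (r (r' p))) * he
  · simp only [P_apply]
    rw [k2 p]
    linear_combination (-(F (r' p)) - e * F (r (r' p))) * he'

private theorem P_inv {m : ℕ} {r r' : Pt m → Pt m} {e e' : ℂ} (he : e * e = 1)
    (he' : e' * e' = 1) {F : Pt m → ℂ} (hF : F ∈ inv5 r r' e e') : P r r' e e' F = (4 : ℂ) • F := by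
  obtain ⟨_, h⟩ := hF
  funext p
  simp only [P_apply, Pi.smul_apply, smul_eq_mul]
  rw [(h (r' p)).1, (h p).1, (h p).2]
  linear_combination (2 * F p) * he + (F p) * he' + F p * e * e * he'

/-- The sum over the powers of the rotation of an `r`-invariant function. -/
private theorem N4_mem {m : ℕ} (hm : 1 ≤ m) {r r' : Pt m → Pt m} (hk : K8 r r') {F : Pt m → ℂ}
    (hF : F ∈ anti5 m) (hFr : ∀ p, F (r p) = F p) : N4 r r' F ∈ inv5 r r' 1 1 := by
  obtain ⟨k1, k2, k3, t1, t2, -⟩ := hk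
  have h1 : (fun p => F (r (r' p))) ∈ anti5 m := anti_comp hm t2 (anti_comp hm t1 hF)
  have h2 : (fun p => F (r (r' (r (r' p))))) ∈ anti5 m := anti_comp hm t2 (anti_comp hm t1 h1)
  have h3 : (fun p => F (r (r' (r (r' (r (r' p))))))) ∈ anti5 m := anti_comp hm t2 (anti_comp hm t1 h2)
  -- the inverse rotation
  have c1 : ∀ p, r (r' (r (r' (r (r' p))))) = r' (r p) := by
    intro p
    rw [k3 (r (r' p)), k1 (r' p), k2 p]
  refine ⟨?_, fun p => ⟨?_, ?_⟩⟩
  · have h4 : N4 r r' F = F + (fun p => F (r (r' p))) + (fun p => F (r (r' (r (r' p))))) +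
        (fun p => F (r (r' (r (r' (r (r' p))))))) := by
      funext p
      simp only [N4_apply, Pi.add_apply]
    rw [h4]
    exact Submodule.add_mem _ (Submodule.add_mem _ (Submodule.add_mem _ hF h1) h2) h3
  · simp only [N4_apply]
    rw [c1 (r p), c1 p, k1 p, hFr p, hFr (r' (r p)), hFr (r' (r (r' (r p)))), ← k3 p, ← hFr (r' p)]
    ring
  · simp only [N4_apply]
    rw [c1 (r' p), c1 p, k2 p, hFr p, hFr (r' (r p)), hFr (r' p), hFr (r' (r (r' p)))]
    ring

private def K1 {m : ℕ} (r : Pt m → Pt m) :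
    ((Pt m → ℂ) × (Pt m → ℂ) × (Pt m → ℂ) × (Pt m → ℂ)) →ₗ[ℂ] (Pt m → ℂ) where
  toFun F p := F.2.1 p + F.2.1 (r p) - F.1 p
  map_add' F F' := by funext p; simp only [Prod.fst_add, Prod.snd_add, Pi.add_apply]; ring
  map_smul' c F := by
    funext p
    simp only [Prod.smul_fst, Prod.smul_snd, Pi.smul_apply, smul_eq_mul, RingHom.id_apply]
    ring

private def K2 {m : ℕ} :
    ((Pt m → ℂ) × (Pt m → ℂ) × (Pt m → ℂ) × (Pt m → ℂ)) →ₗ[ℂ] (Pt m → ℂ) where
  toFun F := F.2.1 + F.2.2.1 + F.2.2.2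
  map_add' F F' := by
    simp only [Prod.fst_add, Prod.snd_add]
    abel
  map_smul' c F := by
    simp only [Prod.smul_fst, Prod.smul_snd, smul_add, RingHom.id_apply]

private theorem K1_apply {m : ℕ} (r : Pt m → Pt m)
    (F : (Pt m → ℂ) × (Pt m → ℂ) × (Pt m → ℂ) × (Pt m → ℂ)) (p : Pt m) :
    K1 r F p = F.2.1 p + F.2.1 (r p) - F.1 p := rfl

private theorem K2_eq {m : ℕ} (F : (Pt m → ℂ) × (Pt m → ℂ) × (Pt m → ℂ) × (Pt m → ℂ)) :
    K2 F = F.2.1 + F.2.2.1 + F.2.2.2 := rfl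

private theorem n1 : (((-1 : ℤ) : ℂ)) = -1 := by push_cast; rfl
private theorem p1 : (((1 : ℤ) : ℂ)) = 1 := by push_cast; rfl

/-- **Module DIMEH.** -/
theorem hDimEH : StHDimE := by
  intro ht hk hk5 hs m hm
  obtain ⟨⟨a1, a2, a3, a4⟩, -, ⟨c1, c2, c3, c4⟩, ⟨m1, m2⟩, ⟨d1, d2⟩, -, k8, -, -⟩ := ht m
  obtain ⟨q1, q2, q3⟩ := hk m hm
  have eV := (hk5 m hm).1
  have eF := q1 ng swH 0 1 1 1 1 a1 a2 a3 a4 (Or.inl rfl) (Or.inl rfl)
  have eM := q2 cAH (-1) m1 m2 (Or.inr rfl)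
  have eD := q2 dlH 1 d1 d2 (Or.inl rfl)
  have e8 := q3 swH cBH k8
  have e3 := q1 (dR 1) cCH 0 1 1 (-1) 1 c1 c2 c3 c4 (Or.inr rfl) (Or.inl rfl)
  rw [p1] at eF eD
  rw [n1] at eM
  rw [n1, p1] at e3
  set Vf := inv5 (m := m) ng swH 1 1 with hVf
  set VM := inv5 (m := m) cAH cAH (-1) (-1) with hVM
  set VD := inv5 (m := m) dlH dlH 1 1 with hVD
  set V8 := inv5 (m := m) swH cBH 1 1 with hV8
  set V3 := inv5 (m := m) (dR 1) cCH (-1) 1 with hV3
  set Q : ((Pt m → ℂ) × (Pt m → ℂ) × (Pt m → ℂ) × (Pt m → ℂ)) →ₗ[ℂ] ((Pt m → ℂ) × (Pt m → ℂ)) :=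
    LinearMap.prod ((N4 swH cBH).comp (K1 swH)) ((P (dR 1) cCH (-1) 1).comp K2) with hQ
  have hQa : ∀ F, Q F = (N4 swH cBH (K1 swH F), P (dR 1) cCH (-1) 1 (K2 F)) := fun _ => rfl
  have hmap : (Vf.prod ((anti5 m).prod (VM.prod VD))).map Q = V8.prod V3 := by
    apply le_antisymm
    · rintro _ ⟨F, hF, rfl⟩
      obtain ⟨hF1, hF2, hF3, hF4⟩ := hF
      rw [hQa]
      refine ⟨N4_mem hm k8 ?_ ?_, P_mem hm c1 c2 c3 (by norm_num) (by norm_num) ?_⟩
      · have e : K1 swH F = F.2.1 + (fun p => F.2.1 (swH p)) - F.1 := rfl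
        rw [e]
        exact Submodule.sub_mem _ (Submodule.add_mem _ hF2 (anti_comp hm a3 hF2)) hF1.1
      · intro p
        rw [K1_apply, K1_apply, a1.2.1 p, (hF1.2 p).2]
        ring
      · exact Submodule.add_mem _ (Submodule.add_mem _ hF2 hF3.1) hF4.1
    · rintro ⟨φ, ψ⟩ ⟨hφ, hψ⟩
      simp only at hφ hψ
      obtain ⟨f0, hf0, l0, hl0, hfn0, hld0, hfl0⟩ := hs 1 m hm ((4 : ℂ)⁻¹ • ψ) (Submodule.smul_mem _ _ hψ.1)
      obtain ⟨f1, hf1, l1, hl1, hfn1, hld1, hfl1⟩ := hs 1 m hm ((8 : ℂ)⁻¹ • φ) (Submodule.smul_mem _ _ hφ.1)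
      have s0 := anti_comp hm a3 hf0
      have s1 := anti_comp hm a3 hf1
      refine ⟨((f0 + fun p => f0 (swH p)) - (f1 + fun p => f1 (swH p)), f0 + l1, 0, 0),
        ⟨⟨?_, fun p => ⟨?_, ?_⟩⟩, ?_, Submodule.zero_mem _, Submodule.zero_mem _⟩, ?_⟩
      · exact Submodule.sub_mem _ (Submodule.add_mem _ hf0 s0) (Submodule.add_mem _ hf1 s1)
      · simp only [Pi.sub_apply, Pi.add_apply]
        rw [← a1.2.2 p, hfn0 p, hfn1 p, hfn0 (swH p), hfn1 (swH p)]
        ring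
      · simp only [Pi.sub_apply, Pi.add_apply]
        rw [a1.2.1 p]
        ring
      · exact Submodule.add_mem _ hf0 hl1
      · rw [hQa, Prod.mk.injEq]
        constructor
        · have e : K1 swH ((f0 + fun p => f0 (swH p)) - (f1 + fun p => f1 (swH p)), f0 + l1, 0, 0) =
              (4 : ℂ)⁻¹ • φ := by
            funext p
            have x1 := hfl1 p
            have x2 := hfl1 (swH p)
            simp only [Pi.smul_apply, smul_eq_mul] at x1 x2
            rw [(hφ.2 p).1] at x2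
            rw [K1_apply]
            simp only [Pi.sub_apply, Pi.add_apply, Pi.smul_apply, smul_eq_mul]
            linear_combination x1 + x2
          rw [e, map_smul]
          have e' : N4 swH cBH φ = (4 : ℂ) • φ := by
            funext p
            have y : ∀ q, φ (swH (cBH q)) = φ q := by
              intro q
              rw [(hφ.2 (cBH q)).1, (hφ.2 q).2]
              ring
            rw [N4_apply, y, y, y, y, y, y, Pi.smul_apply, smul_eq_mul]
            ring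
          rw [e', smul_smul, inv_mul_cancel₀ (by norm_num), one_smul]
        · have e : K2 ((f0 + fun p => f0 (swH p)) - (f1 + fun p => f1 (swH p)), f0 + l1, 0, 0) =
              f0 + l1 := by
            rw [K2_eq, add_zero, add_zero]
          have hPl : ∀ l : Pt m → ℂ, (∀ p, l (dR 1 p) = l p) → P (dR 1) cCH (-1) 1 l = 0 := by
            intro l hl
            funext p
            simp only [P_apply, Pi.zero_apply]
            rw [hl p, hl (cCH p)]
            ring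
          have hsum : (4 : ℂ)⁻¹ • ψ = f0 + l0 := funext fun p => (hfl0 p).symm
          have hPψ := P_inv (r := (dR 1 : Pt m → Pt m)) (r' := cCH) (e := -1) (e' := 1) (by norm_num)
            (by norm_num) hψ
          rw [e, map_add, hPl l1 hld1, add_zero]
          have hPf : P (dR 1) cCH (-1) 1 f0 = P (dR 1) cCH (-1) 1 ((4 : ℂ)⁻¹ • ψ) := by
            rw [hsum, map_add, hPl l0 hld0, add_zero]
          rw [hPf, map_smul, hPψ, smul_smul, inv_mul_cancel₀ (by norm_num), one_smul]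
  have hker : Vf.prod ((anti5 m).prod (VM.prod VD)) ⊓ LinearMap.ker Q = subEH m := by
    ext F
    constructor
    · rintro ⟨⟨h1, h2, h3, h4⟩, h5⟩
      rw [SetLike.mem_coe, LinearMap.mem_ker, hQa, Prod.mk_eq_zero] at h5
      refine ⟨h1, h2, h3, h4, fun p => ?_, fun p => ?_⟩
      · have := congrFun h5.1 p
        simp only [N4_apply, K1_apply, Pi.zero_apply] at this
        linear_combination this
      · have := congrFun h5.2 p
        simp only [P_apply, K2_eq, Pi.zero_apply, Pi.add_apply] at this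
        linear_combination this
    · rintro ⟨h1, h2, h3, h4, h5, h6⟩
      refine ⟨⟨h1, h2, h3, h4⟩, ?_⟩
      rw [SetLike.mem_coe, LinearMap.mem_ker, hQa, Prod.mk_eq_zero]
      constructor
      · funext p
        simp only [N4_apply, K1_apply, Pi.zero_apply]
        linear_combination h5 p
      · funext p
        simp only [P_apply, K2_eq, Pi.zero_apply, Pi.add_apply]
        linear_combination h6 p
  have h6 := rn Q (Vf.prod ((anti5 m).prod (VM.prod VD)))
  rw [hmap, hker, fr_prod, fr_prod, fr_prod, fr_prod] at h6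
  zify at h6 eV e8 ⊢
  push_cast at eF eM eD e3
  linarith

end Pool.Agent.Helper3.TH
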